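import Pool.Agent.V5helper50.SP.Stm

set_option autoImplicit false

open Finset MeasureTheory

namespace Pool.Agent.V5helper44.SP

open Pool.Agent.V5helper51.MT (e)
open Pool.Agent.V5helper50.SP (cnt S_HOL)

/-- the exponential sum -/
noncomputable def S (a : ℕ → ℤ) (J : Finset ℕ) (t : ℝ) : ℂ := ∑ x ∈ J, e (t * a x)

theorem cont_e (c : ℝ) : Continuous fun t : ℝ => e (t * c) := by
  unfold e
  fun_prop

theorem cont_S (a : ℕ → ℤ) (J : Finset ℕ) : Continuous (S a J) := by
  unfold S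
  exact continuous_finsetSum _ fun x _ => cont_e _

theorem e_add (x y : ℝ) : e (x + y) = e x * e y := by
  unfold e
  rw [← Complex.exp_add]
  congr 1
  push_cast
  ring

theorem e_zero : e 0 = 1 := by
  unfold e
  simp

theorem e_sum {ι : Type} (s : Finset ι) (f : ι → ℝ) : e (∑ i ∈ s, f i) = ∏ i ∈ s, e (f i) := by
  classical
  induction s using Finset.induction_on with
  | empty => simp [e_zero]
  | insert i s hi ih => rw [Finset.sum_insert hi, Finset.prod_insert hi, e_add, ih]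

theorem conj_e (x : ℝ) : (starRingEnd ℂ) (e x) = e (-x) := by
  unfold e
  rw [← Complex.exp_conj]
  congr 1
  have h2 : (starRingEnd ℂ) 2 = 2 := Complex.conj_ofNat 2
  simp [h2]

theorem orth (n : ℤ) : ∫ t in (0 : ℝ)..1, e (t * n) = if n = 0 then 1 else 0 := by
  split_ifs with h
  · subst h
    simp [e_zero]
  · have hc : (2 * Real.pi * n * Complex.I : ℂ) ≠ 0 := by
      have : (n : ℂ) ≠ 0 := by exact_mod_cast h
      have h2 : (Real.pi : ℂ) ≠ 0 := by exact_mod_cast Real.pi_ne_zero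
      simp [this, h2, Complex.I_ne_zero]
    have h1 : ∀ t : ℝ, e (t * n) = Complex.exp ((2 * Real.pi * n * Complex.I : ℂ) * t) := by
      intro t
      unfold e
      congr 1
      push_cast
      ring
    simp_rw [h1]
    rw [integral_exp_mul_complex hc]
    have h3 : Complex.exp ((2 * Real.pi * n * Complex.I : ℂ) * ((1 : ℝ) : ℂ)) = 1 := by
      rw [Complex.exp_eq_one_iff]
      exact ⟨n, by push_cast; ring⟩
    rw [h3]
    simp

theorem prod_S {k : ℕ} (a : ℕ → ℤ) (I : Fin k → Finset ℕ) (t : ℝ) :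
    ∏ i, S a (I i) t = ∑ x ∈ Fintype.piFinset I, e (t * (∑ i, a (x i) : ℤ)) := by
  unfold S
  rw [Finset.prod_univ_sum]
  refine Finset.sum_congr rfl fun x _ => ?_
  rw [← e_sum]
  congr 1
  push_cast
  rw [Finset.mul_sum]

/-- orthogonality -/
theorem cnt_eq {k : ℕ} (a : ℕ → ℤ) (I : Fin k → Finset ℕ) :
    (cnt a I : ℝ) = ∫ t in (0 : ℝ)..1, ∏ i, ‖S a (I i) t‖ ^ 2 := by
  classical
  have h1 : ∀ t : ℝ, ((∏ i, ‖S a (I i) t‖ ^ 2 : ℝ) : ℂ) =
      ∑ x ∈ Fintype.piFinset I, ∑ y ∈ Fintype.piFinset I,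
        e (t * ((∑ i, a (x i)) - (∑ i, a (y i)) : ℤ)) := by
    intro t
    have h2 : ((∏ i, ‖S a (I i) t‖ ^ 2 : ℝ) : ℂ) =
        (∏ i, S a (I i) t) * (starRingEnd ℂ) (∏ i, S a (I i) t) := by
      rw [Complex.mul_conj, Complex.normSq_eq_norm_sq, norm_prod, Finset.prod_pow]
    rw [h2, prod_S, map_sum, Finset.sum_mul_sum]
    refine Finset.sum_congr rfl fun x _ => Finset.sum_congr rfl fun y _ => ?_
    rw [conj_e, ← e_add]
    congr 1
    push_cast
    ring
  have h3 : ((∫ t in (0 : ℝ)..1, ∏ i, ‖S a (I i) t‖ ^ 2 : ℝ) : ℂ) = (cnt a I : ℂ) := by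
    rw [← intervalIntegral.integral_ofReal]
    simp_rw [h1]
    rw [intervalIntegral.integral_finsetSum]
    · have h4 : ∀ x ∈ Fintype.piFinset I, (∫ t in (0 : ℝ)..1, ∑ y ∈ Fintype.piFinset I,
          e (t * ((∑ i, a (x i)) - (∑ i, a (y i)) : ℤ))) =
          ∑ y ∈ Fintype.piFinset I, if ∑ i, a (x i) = ∑ i, a (y i) then (1 : ℂ) else 0 := by
        intro x _
        rw [intervalIntegral.integral_finsetSum]
        · refine Finset.sum_congr rfl fun y _ => ?_
          rw [orth]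
          simp only [sub_eq_zero]
        · intro y _
          exact (cont_e _).intervalIntegrable _ _
      rw [Finset.sum_congr rfl h4, ← Finset.sum_product']
      unfold cnt
      rw [← Finset.sum_filter]
      simp only [Finset.sum_const, nsmul_eq_mul, mul_one]
    · intro x _
      exact (continuous_finsetSum _ fun y _ => cont_e _).intervalIntegrable _ _
  exact_mod_cast h3.symm

theorem norm_pow_sum_le {N : ℕ} (z : Fin N → ℂ) (n : ℕ) :
    ‖∑ i, z i‖ ^ (n + 1) ≤ (N : ℝ) ^ n * ∑ i, ‖z i‖ ^ (n + 1) := by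
  rcases Nat.eq_zero_or_pos N with hN | hN
  · subst hN
    simp
  have h1 := pow_sum_div_card_le_sum_pow (s := (univ : Finset (Fin N))) (f := fun i => ‖z i‖)
    (fun i _ => norm_nonneg _) n
  rw [Finset.card_univ, Fintype.card_fin] at h1
  have h2 : (0 : ℝ) < (N : ℝ) ^ n := by positivity
  rw [div_le_iff₀ h2] at h1
  calc ‖∑ i, z i‖ ^ (n + 1) ≤ (∑ i, ‖z i‖) ^ (n + 1) := by
        gcongr
        exact norm_sum_le _ _
    _ ≤ _ := by rw [mul_comm]; exact h1

theorem t_HOL : S_HOL := by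
  intro k N hk a J hJ
  classical
  obtain ⟨n, hn⟩ : ∃ n, 2 * k = n + 1 := ⟨2 * k - 1, by omega⟩
  have hn' : 2 * k - 1 = n := by omega
  have hS : ∀ t, S a (univ.biUnion J) t = ∑ i, S a (J i) t := by
    intro t
    unfold S
    rw [Finset.sum_biUnion]
    intro i _ j _ hij
    exact hJ i j hij
  have hp : ∀ (I : Finset ℕ) (t : ℝ), ∏ _i : Fin k, ‖S a I t‖ ^ 2 = ‖S a I t‖ ^ (n + 1) := by
    intro I t
    rw [Finset.prod_const, Finset.card_univ, Fintype.card_fin, ← pow_mul, hn]
  rw [cnt_eq, hn']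
  simp_rw [cnt_eq, hp]
  rw [← intervalIntegral.integral_finsetSum, ← intervalIntegral.integral_const_mul]
  · refine intervalIntegral.integral_mono_on (by norm_num) ?_ ?_ fun t _ => ?_
    · exact ((cont_S a _).norm.pow _).intervalIntegrable _ _
    · exact (continuous_const.mul (continuous_finsetSum _ fun i _ =>
        (cont_S a _).norm.pow _)).intervalIntegrable _ _
    · rw [hS]
      exact norm_pow_sum_le _ n
  · intro i _
    exact ((cont_S a _).norm.pow _).intervalIntegrable _ _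

end Pool.Agent.V5helper44.SP
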